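import Mathlib
import Pool.Agent.H770R2.Kad.Props

open scoped ComplexOrder InnerProductSpace

noncomputable section

namespace H770R2.Kad

open H759R2.Kad

universe u v

/-- Core of the localisation argument, for an abstract algebra `R` between `A` and `B(H)`. -/
theorem pfib_core (h1 : G_rep.{0, 0}) (h2 : G_quot.{0, 0}) (h3 : G_corner.{0, 0})
    (h4 : D_hom.{0, 0})
    (A : Type) [CStarAlgebra A] [PartialOrder A] [StarOrderedRing A]
    (R : Type) [CStarAlgebra R] [PartialOrder R] [StarOrderedRing R]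
    (H : Type) [NormedAddCommGroup H] [InnerProductSpace ℂ H] [CompleteSpace H]
    (j : R →⋆ₐ[ℂ] (H →L[ℂ] H)) (hj : Function.Injective j) (ι : A →⋆ₐ[ℂ] R)
    (D : A →ₗ[ℂ] R) (hD : ∀ a b, D (a * b) = ι a * D b + D a * ι b) (hDb : ∀ a, ‖D a‖ ≤ ‖a‖)
    (Cen : A → Prop) (hCen : ∀ z, Cen z → ∀ r : R, ι z * r = r * ι z)
    (P : A) (hP : Cen P) (hDP : D P = 0) (m : ℕ) (hm : 0 < m) (C : ℝ) (hC : 0 ≤ C)
    (hfib : ∀ (B : Type) [CStarAlgebra B] [PartialOrder B] [StarOrderedRing B]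
      (φ : A →⋆ₐ[ℂ] B), Function.Surjective φ →
      (∀ x : A, Cen x → ∃ c : ℂ, φ x = algebraMap ℂ B c) → φ P = 1 →
      ∀ (K : Type) [NormedAddCommGroup K] [InnerProductSpace ℂ K] [CompleteSpace K]
        (w : B →ₗ[ℂ] (K →L[ℂ] K)), IsHom w → (∀ b, ‖w b‖ ≤ 2 * ‖b‖) → LvlBd w m C)
    (X : CStarMatrix (Fin m) (Fin m) A) (hX : ∀ i k, P * X i k = X i k) :
    ‖(CStarMatrix.ofMatrix (fun i k => D (X i k)) : CStarMatrix (Fin m) (Fin m) R)‖ ≤
      C * ‖X‖ := by
  set Y : CStarMatrix (Fin m) (Fin m) R := CStarMatrix.ofMatrix (fun i k => D (X i k)) with hYdef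
  have hYa : ∀ i k, Y i k = D (X i k) := fun i k => rfl
  by_cases hY : Y = 0
  · rw [hY, norm_zero]
    positivity
  obtain ⟨K, iK1, iK2, iK3, ρ, hρn, hρz⟩ := h1 R H j hj m hm Y hY
  obtain ⟨B, iB, φ, j', D', hφs, hj', hjφ, hD', hder, hDn⟩ :=
    h2 A R ι D hD 1 zero_le_one (fun a => by rw [one_mul]; exact hDb a) K ρ
  let _ : PartialOrder B := CStarAlgebra.spectralOrder B
  let _ : StarOrderedRing B := CStarAlgebra.spectralOrderedRing B
  -- centre goes to scalars
  have hz : ∀ x : A, Cen x → ∃ c : ℂ, φ x = algebraMap ℂ B c := by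
    intro x hx
    obtain ⟨c, hc⟩ := hρz (ι x) (hCen x hx)
    refine ⟨c, hj' ?_⟩
    rw [hjφ, hc]
    rw [AlgHomClass.commutes, Algebra.algebraMap_eq_smul_one]
  -- `P` goes to one
  have hPY : ∀ i k, ι P * Y i k = Y i k := by
    intro i k
    have h := hD P (X i k)
    rw [hX, hDP, zero_mul, add_zero] at h
    rw [hYa, ← h]
  obtain ⟨c, hc⟩ := hρz (ι P) (hCen P hP)
  have hex : ∃ i k, ρ (Y i k) ≠ 0 := by
    by_contra hcon
    push Not at hcon
    apply hY
    have : amp ρ.toLinearMap (Fin m) Y = 0 := by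
      ext v i
      rw [amp_apply]
      simp [hcon]
    rw [this, norm_zero] at hρn
    exact norm_eq_zero.mp (le_antisymm hρn (norm_nonneg _))
  obtain ⟨i0, k0, hne⟩ := hex
  have hc1 : c = 1 := by
    have h := congrArg ρ (hPY i0 k0)
    rw [map_mul, hc, smul_mul_assoc, one_mul] at h
    have h' : (c - 1) • ρ (Y i0 k0) = 0 := by
      rw [sub_smul, one_smul, h, sub_self]
    rcases smul_eq_zero.mp h' with h'' | h''
    · exact sub_eq_zero.mp h''
    · exact absurd h'' hne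
  have hφP : φ P = 1 := by
    apply hj'
    rw [hjφ, hc, hc1, one_smul, map_one]
  -- the homomorphism
  obtain ⟨hw1, hw2⟩ := h4 B K j' D' hder 1 zero_le_one hDn
  have hL := hfib B φ hφs hz hφP (HH (Fin 2) K) (uD j' D') hw1
    (fun b => by have := hw2 b; norm_num at this ⊢; exact this)
  set Z : CStarMatrix (Fin m) (Fin m) B :=
    CStarMatrix.mapₙₐ (n := Fin m) (φ : A →⋆ₙₐ[ℂ] B) X with hZ
  have hZn : ‖Z‖ ≤ ‖X‖ := NonUnitalStarAlgHom.norm_apply_le _ _
  have hZa : ∀ i k, Z i k = φ (X i k) := fun i k => rfl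
  have he : amp ρ.toLinearMap (Fin m) Y = amp D' (Fin m) Z := by
    ext ξ i
    rw [amp_apply, amp_apply]
    refine Finset.sum_congr rfl fun k _ => ?_
    rw [hZa, hD', hYa]
    rfl
  calc ‖Y‖ ≤ ‖amp ρ.toLinearMap (Fin m) Y‖ := hρn
    _ = ‖amp D' (Fin m) Z‖ := by rw [he]
    _ ≤ ‖amp (uD j' D') (Fin m) Z‖ := (h3 B K j' D' m Z).2
    _ ≤ C * ‖Z‖ := hL Z
    _ ≤ C * ‖X‖ := mul_le_mul_of_nonneg_left hZn hC

open H710R2.DP in
/-- The commutant of the centre. -/
def Rc {H : Type} [NormedAddCommGroup H] [InnerProductSpace ℂ H] [CompleteSpace H]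
    (M : VonNeumannAlgebra H) : StarSubalgebra ℂ (H →L[ℂ] H) :=
  StarSubalgebra.centralizer ℂ {z | IsCen M z}

instance Rc_closed {H : Type} [NormedAddCommGroup H] [InnerProductSpace ℂ H] [CompleteSpace H]
    (M : VonNeumannAlgebra H) : IsClosed (Rc M : Set (H →L[ℂ] H)) := by
  rw [Rc, StarSubalgebra.coe_centralizer]
  exact Set.isClosed_centralizer _

open H710R2.DP in
theorem IsCen.star' {H : Type} [NormedAddCommGroup H] [InnerProductSpace ℂ H] [CompleteSpace H]
    {M : VonNeumannAlgebra H} {z : H →L[ℂ] H} (hz : IsCen M z) : IsCen M (star z) := by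
  refine ⟨star_mem hz.1, fun a ha => ?_⟩
  have h := hz.2 (star a) (star_mem ha)
  have h' := congrArg star h
  rw [star_mul, star_mul, star_star] at h'
  exact h'.symm

open H710R2.DP in
theorem mem_Rc {H : Type} [NormedAddCommGroup H] [InnerProductSpace ℂ H] [CompleteSpace H]
    {M : VonNeumannAlgebra H} {x : H →L[ℂ] H} :
    x ∈ Rc M ↔ ∀ z, IsCen M z → z * x = x * z := by
  rw [Rc, StarSubalgebra.mem_centralizer_iff]
  constructor
  · intro h z hz
    exact (h z hz).1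
  · intro h z hz
    exact ⟨h z hz, h _ (IsCen.star' hz)⟩

open H710R2.DP in
theorem prove_pfib (h1 : G_rep.{0, 0}) (h2 : G_quot.{0, 0}) (h3 : G_corner.{0, 0}) (h4 : D_hom.{0, 0}) :
    H710R2.DP.P_fib := by
  intro H _ _ _ M _ _ E d hd hE hcen p hp m C hC hfib X hX
  rcases Nat.eq_zero_or_pos m with hm | hm
  · subst hm
    have : amp E (Fin 0) X = 0 := by
      ext v i
      exact i.elim0
    rw [this, norm_zero]
    positivity
  rcases hd.eq_or_lt with hd0 | hd0
  · have hE0 : ∀ a, E a = 0 := by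
      intro a
      have := hE.bound a
      rw [← hd0, zero_mul] at this
      exact norm_eq_zero.mp (le_antisymm this (norm_nonneg _))
    have : amp E (Fin m) X = 0 := by
      ext v i
      rw [amp_apply]
      simp [hE0]
    rw [this, norm_zero]
    positivity
  -- the algebra `R`
  let _ : PartialOrder (Rc M) := CStarAlgebra.spectralOrder (Rc M)
  let _ : StarOrderedRing (Rc M) := CStarAlgebra.spectralOrderedRing (Rc M)
  have hMR : M.toStarSubalgebra ≤ Rc M := by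
    intro x hx
    rw [mem_Rc]
    intro z hz
    exact hz.2 x hx
  have hER : ∀ x, E x ∈ Rc M := by
    intro x
    rw [mem_Rc]
    intro z hz
    let z' : M.toStarSubalgebra := ⟨z, hz.1⟩
    have hz' : (z' : H →L[ℂ] H) = z := rfl
    have e1 := hE.leib z' x
    have e2 := hE.leib x z'
    rw [hcen z' hz, zero_mul, add_zero] at e1
    rw [hcen z' hz, mul_zero, zero_add] at e2
    have e3 : z' * x = x * z' := Subtype.ext (hz.2 x x.2)
    rw [e3, e2] at e1
    exact e1.symm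
  have hd' : (d : ℂ) ≠ 0 := by exact_mod_cast hd0.ne'
  let D : M.toStarSubalgebra →ₗ[ℂ] Rc M :=
    { toFun := fun x => ⟨(d : ℂ)⁻¹ • E x, SMulMemClass.smul_mem _ (hER x)⟩
      map_add' := fun x y => Subtype.ext (by simp [smul_add])
      map_smul' := fun c x => Subtype.ext (by
        change (d : ℂ)⁻¹ • E (c • x) = c • ((d : ℂ)⁻¹ • E x)
        rw [map_smul, smul_comm]) }
  have hDv : ∀ x, ((D x : Rc M) : H →L[ℂ] H) = (d : ℂ)⁻¹ • E x := fun x => rfl
  let ι : M.toStarSubalgebra →⋆ₐ[ℂ] Rc M := StarSubalgebra.inclusion hMR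
  have hιv : ∀ x, ((ι x : Rc M) : H →L[ℂ] H) = x := fun x => rfl
  have hleib : ∀ a b, D (a * b) = ι a * D b + D a * ι b := by
    intro a b
    apply Subtype.ext
    have h := hE.leib a b
    change (d : ℂ)⁻¹ • E (a * b) = (a : H →L[ℂ] H) * ((d : ℂ)⁻¹ • E b) +
      ((d : ℂ)⁻¹ • E a) * (b : H →L[ℂ] H)
    rw [h, smul_add, mul_smul_comm, smul_mul_assoc]
    rfl
  have hDb : ∀ a, ‖D a‖ ≤ ‖a‖ := by
    intro a
    change ‖(d : ℂ)⁻¹ • E a‖ ≤ ‖a‖
    rw [norm_smul, norm_inv, Complex.norm_real, Real.norm_of_nonneg hd]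
    rw [inv_mul_le_iff₀ hd0]
    exact hE.bound a
  let P : M.toStarSubalgebra := ⟨p, hp.2.1⟩
  have key := pfib_core h1 h2 h3 h4 M.toStarSubalgebra (Rc M) H (Rc M).subtype
    Subtype.val_injective ι D hleib hDb (fun x => IsCen M (x : H →L[ℂ] H))
    (fun z hz r => Subtype.ext ((mem_Rc.mp r.2) z hz)) P hp.2
    (Subtype.ext (by rw [hDv, hcen P hp.2, smul_zero]; rfl)) m hm C hC
    (fun B _ _ _ φ hs hc hP K _ _ _ w hw hb =>
      hfib B φ hs hc (fun x hx => by
        have : x = P := Subtype.ext hx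
        rw [this, hP]) K w hw hb) X (fun i k => Subtype.ext (hX i k))
  set Y : CStarMatrix (Fin m) (Fin m) (Rc M) :=
    CStarMatrix.ofMatrix (fun i k => D (X i k)) with hY
  have he : amp E (Fin m) X = (d : ℂ) • ampHom (Rc M).subtype (Fin m) Y := by
    ext v i
    rw [ampHom_apply, amp_apply, smul_apply, PiLp.smul_apply, amp_apply, Finset.smul_sum]
    refine Finset.sum_congr rfl fun k _ => ?_
    change E (X i k) (v k) = (d : ℂ) • (((d : ℂ)⁻¹ • E (X i k)) (v k))
    rw [smul_apply, smul_inv_smul₀ hd']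
  rw [he, norm_smul, Complex.norm_real, Real.norm_of_nonneg hd]
  have hn : ‖ampHom (Rc M).subtype (Fin m) Y‖ ≤ ‖Y‖ := NonUnitalStarAlgHom.norm_apply_le _ _
  calc d * ‖ampHom (Rc M).subtype (Fin m) Y‖ ≤ d * (C * ‖X‖) :=
        mul_le_mul_of_nonneg_left (hn.trans key) hd
    _ = C * d * ‖X‖ := by ring

end H770R2.Kad
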